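import Pool.Agent.Q125.Bic.Main

set_option autoImplicit false

namespace Pool.Agent.Results.MP_93593e_co.ArcBound

open Q125.Bic

/-- Positive answer to Q1: a minimal 2-edge-strongly biconnected digraph on `n` vertices (without
loops and parallel arcs) has at most `7 n - 8` arcs, hence at most `7 n` arcs. -/
theorem result (V : Type) [Fintype V] [DecidableEq V] (E : Finset (V × V))
    (noLoops : ∀ e ∈ E, e.1 ≠ e.2) (hmin : IsMinimal E) :
    E.card + 8 ≤ 7 * Fintype.card V :=
  main E noLoops hmin

end Pool.Agent.Results.MP_93593e_co.ArcBound
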